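import Mathlib
import Pool.Agent.Helper60_AK.StmtA

set_option autoImplicit false

/-! Squad AK, basic facts on the norms `hn`. -/

namespace Pool.Agent.AK.H15

open Complex

theorem sq4_nonneg (k : Z4) : 0 ≤ sq4 k := Finset.sum_nonneg (fun _ _ => sq_nonneg _)

theorem Lam_pos {A : ℝ} (hA : 1 ≤ A) (k : Z4) : 0 < Lam A k :=
  Real.sqrt_pos.2 (by have := sq4_nonneg k; linarith)

theorem Lam_sq {A : ℝ} (hA : 1 ≤ A) (k : Z4) : Lam A k ^ 2 = A + sq4 k :=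
  Real.sq_sqrt (by have := sq4_nonneg k; linarith)

theorem sqrt_le_Lam (A : ℝ) (k : Z4) : Real.sqrt A ≤ Lam A k :=
  Real.sqrt_le_sqrt (by have := sq4_nonneg k; linarith)

theorem abs_le_Lam {A : ℝ} (hA : 1 ≤ A) (k : Z4) (j : Fin 4) : |((k j : ℤ) : ℝ)| ≤ Lam A k := by
  apply Real.abs_le_sqrt
  have h : ((k j : ℤ) : ℝ) ^ 2 ≤ sq4 k :=
    Finset.single_le_sum (f := fun i => ((k i : ℤ) : ℝ) ^ 2) (fun _ _ => sq_nonneg _)
      (Finset.mem_univ j)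
  linarith

section

variable {V : Type} [NormedAddCommGroup V]

theorem term_nonneg {A : ℝ} (hA : 1 ≤ A) (s : ℤ) (w : Z4 → V) (k : Z4) :
    0 ≤ Lam A k ^ (2 * s) * ‖w k‖ ^ 2 :=
  mul_nonneg (zpow_nonneg (Lam_pos hA k).le _) (sq_nonneg _)

theorem hn_nonneg (A : ℝ) (s : ℤ) (w : Z4 → V) : 0 ≤ hn A s w := Real.sqrt_nonneg _

theorem hn_sq {A : ℝ} (hA : 1 ≤ A) (s : ℤ) (w : Z4 → V) :
    hn A s w ^ 2 = ∑' k, Lam A k ^ (2 * s) * ‖w k‖ ^ 2 :=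
  Real.sq_sqrt (tsum_nonneg (term_nonneg hA s w))

theorem hn_mono {W : Type} [NormedAddCommGroup W] {A B : ℝ} (hA : 1 ≤ A) (hB : 1 ≤ B) (s s' : ℤ)
    (w : Z4 → V) (w' : Z4 → W) (c : ℝ) (hc : 0 ≤ c)
    (hle : ∀ k, Lam A k ^ (2 * s) * ‖w k‖ ^ 2 ≤ c ^ 2 * (Lam B k ^ (2 * s') * ‖w' k‖ ^ 2))
    (hs : Summable fun k => Lam B k ^ (2 * s') * ‖w' k‖ ^ 2) :
    hn A s w ≤ c * hn B s' w' := by
  apply le_of_sq_le_sq _ (mul_nonneg hc (hn_nonneg _ _ _))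
  rw [mul_pow, hn_sq hA, hn_sq hB, ← tsum_mul_left]
  exact Summable.tsum_le_tsum hle
    (Summable.of_nonneg_of_le (term_nonneg hA s w) hle (hs.mul_left _)) (hs.mul_left _)

theorem hn_add {A : ℝ} (hA : 1 ≤ A) (s : ℤ) (f g : Z4 → V)
    (hf : Summable fun k => Lam A k ^ (2 * s) * ‖f k‖ ^ 2)
    (hg : Summable fun k => Lam A k ^ (2 * s) * ‖g k‖ ^ 2) :
    hn A s (fun k => f k + g k) ≤ hn A s f + hn A s g ∧
      Summable fun k => Lam A k ^ (2 * s) * ‖f k + g k‖ ^ 2 := by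
  have key : ∀ w : Z4 → V, ∀ k, (Lam A k ^ s * ‖w k‖) ^ (2 : ℝ) = Lam A k ^ (2 * s) * ‖w k‖ ^ 2 := by
    intro w k
    rw [show (2 : ℝ) = ((2 : ℕ) : ℝ) by norm_num, Real.rpow_natCast, mul_pow, ← zpow_natCast,
      ← zpow_mul, mul_comm s]
    norm_num
  have h := Real.Lp_add_le_tsum_of_nonneg (p := 2) (by norm_num)
    (f := fun k => Lam A k ^ s * ‖f k‖) (g := fun k => Lam A k ^ s * ‖g k‖)
    (fun k => mul_nonneg (zpow_nonneg (Lam_pos hA k).le _) (norm_nonneg _))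
    (fun k => mul_nonneg (zpow_nonneg (Lam_pos hA k).le _) (norm_nonneg _))
    (by simpa only [key] using hf) (by simpa only [key] using hg)
  have hle : ∀ k, Lam A k ^ (2 * s) * ‖f k + g k‖ ^ 2 ≤
      (Lam A k ^ s * ‖f k‖ + Lam A k ^ s * ‖g k‖) ^ (2 : ℝ) := by
    intro k
    have h2 : (Lam A k ^ s * ‖f k‖ + Lam A k ^ s * ‖g k‖) ^ (2 : ℝ) =
        Lam A k ^ (2 * s) * (‖f k‖ + ‖g k‖) ^ 2 := by
      rw [← mul_add, show (2 : ℝ) = ((2 : ℕ) : ℝ) by norm_num, Real.rpow_natCast, mul_pow,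
        ← zpow_natCast, ← zpow_mul, mul_comm s]
      norm_num
    rw [h2]
    exact mul_le_mul_of_nonneg_left (pow_le_pow_left₀ (norm_nonneg _) (norm_add_le _ _) 2)
      (zpow_nonneg (Lam_pos hA k).le _)
  have hsum : Summable fun k => Lam A k ^ (2 * s) * ‖f k + g k‖ ^ 2 :=
    Summable.of_nonneg_of_le (fun k => term_nonneg hA s (fun k => f k + g k) k) hle h.1
  refine ⟨?_, hsum⟩
  have e1 : ∀ w : Z4 → V, hn A s w = (∑' k, (Lam A k ^ s * ‖w k‖) ^ (2 : ℝ)) ^ (1 / 2 : ℝ) := by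
    intro w
    rw [← Real.sqrt_eq_rpow]
    simp only [key]
    rfl
  rw [e1 f, e1 g]
  refine le_trans ?_ h.2
  rw [← Real.sqrt_eq_rpow]
  exact Real.sqrt_le_sqrt (Summable.tsum_le_tsum hle hsum h.1)

end

section

variable {V : Type} [NormedAddCommGroup V] [NormedSpace ℂ V]

theorem norm_Lm {A : ℝ} (hA : 1 ≤ A) (r : ℤ) (w : Z4 → V) (k : Z4) :
    ‖Lm A r w k‖ = Lam A k ^ r * ‖w k‖ := by
  unfold Lm
  rw [norm_smul, Complex.norm_real, Real.norm_of_nonneg (zpow_nonneg (Lam_pos hA k).le _)]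

theorem hn_Lm {A : ℝ} (hA : 1 ≤ A) (s r : ℤ) (w : Z4 → V) :
    hn A s (Lm A r w) = hn A (s + r) w := by
  unfold hn
  congr 1
  apply tsum_congr
  intro k
  rw [norm_Lm hA, mul_pow, ← zpow_natCast (Lam A k ^ r), ← zpow_mul, ← mul_assoc,
    ← zpow_add₀ (Lam_pos hA k).ne']
  congr 2
  push_cast
  ring

theorem cv_id (γ : Z4 → ℂ) (w : Z4 → V) :
    cv (fun k => γ k • ContinuousLinearMap.id ℂ V) w = scv γ w := by
  funext k
  simp [cv, scv]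

theorem hn_dj {A : ℝ} (hA : 1 ≤ A) (s : ℤ) (j : Fin 4) (w : Z4 → V)
    (hs : Summable fun k => Lam A k ^ (2 * (s + 1)) * ‖w k‖ ^ 2) :
    hn A s (dj j w) ≤ (2 * Real.pi) * hn A (s + 1) w := by
  apply hn_mono hA hA s (s + 1) _ _ _ (by positivity) _ hs
  intro k
  have h1 : ‖dj j w k‖ = 2 * Real.pi * |((k j : ℤ) : ℝ)| * ‖w k‖ := by
    unfold dj
    rw [norm_smul]
    congr 1
    rw [norm_mul, norm_mul, norm_mul, Complex.norm_I, Complex.norm_real, Complex.norm_intCast]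
    rw [Real.norm_of_nonneg Real.pi_pos.le]
    norm_num
  rw [h1]
  have h2 : Lam A k ^ (2 * (s + 1)) = Lam A k ^ (2 * s) * Lam A k ^ 2 := by
    rw [mul_add, zpow_add₀ (Lam_pos hA k).ne']
    norm_cast
  rw [h2]
  have h3 := abs_le_Lam hA k j
  have h4 : |((k j : ℤ) : ℝ)| ^ 2 ≤ Lam A k ^ 2 := pow_le_pow_left₀ (abs_nonneg _) h3 2
  have h5 := term_nonneg hA s w k
  calc Lam A k ^ (2 * s) * (2 * Real.pi * |((k j : ℤ) : ℝ)| * ‖w k‖) ^ 2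
      = (2 * Real.pi) ^ 2 * (Lam A k ^ (2 * s) * ‖w k‖ ^ 2) * |((k j : ℤ) : ℝ)| ^ 2 := by ring
    _ ≤ (2 * Real.pi) ^ 2 * (Lam A k ^ (2 * s) * ‖w k‖ ^ 2) * Lam A k ^ 2 :=
        mul_le_mul_of_nonneg_left h4 (by positivity)
    _ = _ := by ring

/-- lowering the index by one gains `A^(-1/2)` -/
theorem hn_pred {A : ℝ} (hA : 1 ≤ A) (s : ℤ) (w : Z4 → V)
    (hs : Summable fun k => Lam A k ^ (2 * s) * ‖w k‖ ^ 2) :
    hn A (s - 1) w ≤ (Real.sqrt A)⁻¹ * hn A s w := by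
  have hA0 : 0 < A := by linarith
  apply hn_mono hA hA (s - 1) s _ _ _ (by positivity) _ hs
  intro k
  have h2 : Lam A k ^ (2 * s) = Lam A k ^ (2 * (s - 1)) * Lam A k ^ 2 := by
    rw [show 2 * s = 2 * (s - 1) + 2 by ring, zpow_add₀ (Lam_pos hA k).ne']
    norm_cast
  rw [h2]
  have h3 : A ≤ Lam A k ^ 2 := by rw [Lam_sq hA]; have := sq4_nonneg k; linarith
  have h5 := term_nonneg hA (s - 1) w k
  rw [inv_pow, Real.sq_sqrt hA0.le]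
  calc Lam A k ^ (2 * (s - 1)) * ‖w k‖ ^ 2
      = A⁻¹ * (A * (Lam A k ^ (2 * (s - 1)) * ‖w k‖ ^ 2)) := by field_simp
    _ ≤ A⁻¹ * (Lam A k ^ 2 * (Lam A k ^ (2 * (s - 1)) * ‖w k‖ ^ 2)) :=
        mul_le_mul_of_nonneg_left (mul_le_mul_of_nonneg_right h3 h5) (by positivity)
    _ = _ := by ring

end

/-- comparison of the parameters `1` and `A` -/
theorem Lam_cmp {A : ℝ} (hA : 1 ≤ A) (k : Z4) :
    Lam 1 k ≤ Lam A k ∧ Lam A k ≤ Real.sqrt A * Lam 1 k := by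
  have h := sq4_nonneg k
  constructor
  · exact Real.sqrt_le_sqrt (by linarith)
  · unfold Lam
    rw [← Real.sqrt_mul (by linarith)]
    exact Real.sqrt_le_sqrt (by nlinarith)

theorem zpow_cmp {x y c : ℝ} (hx : 0 < x) (hy : 0 < y) (hc : 1 ≤ c) (h1 : x ≤ c * y) (h2 : y ≤ c * x)
    (r : ℤ) : x ^ r ≤ c ^ r.natAbs * y ^ r := by
  obtain ⟨n, hn | hn⟩ := r.eq_nat_or_neg
  · subst hn
    simp only [Int.natAbs_natCast, zpow_natCast]
    rw [← mul_pow]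
    exact pow_le_pow_left₀ hx.le h1 n
  · subst hn
    simp only [Int.natAbs_neg, Int.natAbs_natCast, zpow_neg, zpow_natCast]
    have h3 : y ^ n ≤ (c * x) ^ n := pow_le_pow_left₀ hy.le h2 n
    rw [mul_pow] at h3
    rw [inv_le_iff_one_le_mul₀ (by positivity)]
    have h4 : c ^ n * (y ^ n)⁻¹ * x ^ n = (c ^ n * x ^ n) * (y ^ n)⁻¹ := by ring
    rw [h4]
    rw [← div_eq_mul_inv, one_le_div (by positivity)]
    exact h3

section

variable {V : Type} [NormedAddCommGroup V]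

theorem hn_cmp {A B : ℝ} (hA : 1 ≤ A) (hB : 1 ≤ B) (c : ℝ) (hc : 1 ≤ c)
    (h1 : ∀ k, Lam A k ≤ c * Lam B k) (h2 : ∀ k, Lam B k ≤ c * Lam A k) (s : ℤ) (w : Z4 → V)
    (hs : Summable fun k => Lam B k ^ (2 * s) * ‖w k‖ ^ 2) :
    hn A s w ≤ c ^ s.natAbs * hn B s w := by
  apply hn_mono hA hB s s _ _ _ (by positivity) _ hs
  intro k
  have h := zpow_cmp (Lam_pos hA k) (Lam_pos hB k) hc (h1 k) (h2 k) (2 * s)
  have e : c ^ (2 * s).natAbs = (c ^ s.natAbs) ^ 2 := by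
    rw [Int.natAbs_mul, ← pow_mul, mul_comm]
    norm_num
  rw [e] at h
  calc Lam A k ^ (2 * s) * ‖w k‖ ^ 2 ≤ (c ^ s.natAbs) ^ 2 * Lam B k ^ (2 * s) * ‖w k‖ ^ 2 :=
        mul_le_mul_of_nonneg_right h (sq_nonneg _)
    _ = _ := by ring

end

end Pool.Agent.AK.H15
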