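import Mathlib
import Pool.Agent.Helper15_AK.Base

set_option autoImplicit false

/-! Squad AK, A6: interpolation. -/

namespace Pool.Agent.AK.H15

open Complex

variable {V : Type} [NormedAddCommGroup V] [InnerProductSpace ℂ V]

theorem ip_Lm_self {A : ℝ} (hA : 1 ≤ A) (r : ℤ) (u : Z4 → V) :
    ip (Lm A (2 * r) u) u = ((hn A r u ^ 2 : ℝ) : ℂ) := by
  rw [hn_sq hA]
  unfold ip
  rw [Complex.ofReal_tsum]
  apply tsum_congr
  intro k
  unfold Lm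
  rw [inner_smul_left, Complex.conj_ofReal, inner_self_eq_norm_sq_to_K]
  push_cast
  rfl

theorem it_succ (γ : Z4 → ℂ) (j : ℕ) (v : Z4 → V) :
    (scv γ)^[j + 1] v = scv γ ((scv γ)^[j] v) := Function.iterate_succ_apply' _ _ _

theorem it_rap [CompleteSpace V] (h1 : A1Stmt) (γ : Z4 → ℂ) (hγ : Rap γ) (j : ℕ) (v : Z4 → V)
    (hv : Rap v) : Rap ((scv γ)^[j] v) := by
  induction j with
  | zero => exact hv
  | succ j ih => rw [it_succ]; exact (h1.1 V γ _ hγ ih).1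

/-- log-convexity with an error term -/
theorem step [CompleteSpace V] (h1 : A1Stmt) (h3 : A3Stmt) (h5 : A5Stmt) (γ : Z4 → ℂ)
    (hγ : Rap γ) (hs : stS γ = γ) (s : ℤ) (j : ℕ) :
    ∃ C : ℝ, 0 ≤ C ∧ ∀ A : ℝ, 1 ≤ A → ∀ v : Z4 → V, Rap v →
      hn A ((j : ℤ) + 1 - s) ((scv γ)^[j + 1] v) ^ 2 ≤
        (hn A ((j : ℤ) + 2 - s) ((scv γ)^[j + 2] v)
          + C * hn A ((j : ℤ) + 1 - s) ((scv γ)^[j + 1] v))
          * hn A ((j : ℤ) - s) ((scv γ)^[j] v) := by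
  obtain ⟨C, hC, hcom⟩ := h5.2 V (2 * ((j : ℤ) + 1 - s)) (s - j)
    (fun k => γ k • ContinuousLinearMap.id ℂ V) (h1.2.2.2.2.2.2 V γ hγ)
  refine ⟨C, hC, fun A hA v hv => ?_⟩
  set u0 := (scv γ)^[j] v with hu0
  have e1 : (scv γ)^[j + 1] v = scv γ u0 := it_succ γ j v
  have e2 : (scv γ)^[j + 2] v = scv γ (scv γ u0) := by rw [it_succ, e1]
  have hr0 : Rap u0 := it_rap h1 γ hγ j v hv
  have hr1 : Rap (scv γ u0) := (h1.1 V γ _ hγ hr0).1
  have hr2 : Rap (scv γ (scv γ u0)) := (h1.1 V γ _ hγ hr1).1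
  rw [e1, e2]
  set u1 := scv γ u0 with hu1
  set r : ℤ := (j : ℤ) + 1 - s with hr
  have hrL : Rap (Lm A (2 * r) u1) := (h1.2.2.2.2.2.1 V A (2 * r) u1 hA hr1).1
  have hrg : Rap (scv γ (Lm A (2 * r) u1)) := (h1.1 V γ _ hγ hrL).1
  have hp : ip (Lm A (2 * r) u1) u1 = ip (scv γ (Lm A (2 * r) u1)) u0 := by
    rw [h3.1 V γ (Lm A (2 * r) u1) u0 hγ hrL hr0, hs]
  have hcs := h3.2.2.2.2.1 V A (s - j) (scv γ (Lm A (2 * r) u1)) u0 hA hrg hr0
  rw [← hp, ip_Lm_self hA, Complex.norm_real, Real.norm_of_nonneg (sq_nonneg _)] at hcs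
  rw [show -(s - (j : ℤ)) = (j : ℤ) - s by ring] at hcs
  refine le_trans hcs (mul_le_mul_of_nonneg_right ?_ (hn_nonneg _ _ _))
  -- the commutator
  have hc := hcom A hA u1 hr1
  simp only [cv_id] at hc
  have hsub : (fun k => Lm A (2 * r) (scv γ u1) k - scv γ (Lm A (2 * r) u1) k) =
      fun k => Lm A (2 * r) (scv γ u1) k - scv γ (Lm A (2 * r) u1) k := rfl
  have hL2 : Rap (Lm A (2 * r) (scv γ u1)) := (h1.2.2.2.2.2.1 V A (2 * r) _ hA hr2).1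
  have sm : ∀ (w : Z4 → V) (q : ℤ), Rap w → Summable fun k => Lam A k ^ (2 * q) * ‖w k‖ ^ 2 :=
    fun w q hw => (h1.2.2.2.2.2.1 V A q w hA hw).2.2
  -- summability of the commutator
  have hneg : ∀ w : Z4 → V, ∀ q : ℤ, (Summable fun k => Lam A k ^ (2 * q) * ‖w k‖ ^ 2) →
      Summable fun k => Lam A k ^ (2 * q) * ‖(fun k => - w k) k‖ ^ 2 := by
    intro w q hw
    simpa using hw
  have hnn : ∀ w : Z4 → V, ∀ q : ℤ, hn A q (fun k => - w k) = hn A q w := by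
    intro w q
    unfold hn
    simp
  have a1 := hn_add hA (s - j) (fun k => - Lm A (2 * r) (scv γ u1) k)
    (scv γ (Lm A (2 * r) u1)) (hneg _ _ (sm _ _ hL2)) (sm _ _ hrg)
  have a2 := hn_add hA (s - j) (Lm A (2 * r) (scv γ u1))
    (fun k => - Lm A (2 * r) (scv γ u1) k + scv γ (Lm A (2 * r) u1) k) (sm _ _ hL2) a1.2
  have e3 : (fun k => Lm A (2 * r) (scv γ u1) k + (fun k => - Lm A (2 * r) (scv γ u1) k
      + scv γ (Lm A (2 * r) u1) k) k) = scv γ (Lm A (2 * r) u1) := by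
    funext k
    simp
  have e4 : hn A (s - j) (fun k => - Lm A (2 * r) (scv γ u1) k + scv γ (Lm A (2 * r) u1) k) =
      hn A (s - j) (fun k => Lm A (2 * r) (scv γ u1) k - scv γ (Lm A (2 * r) u1) k) := by
    rw [← hnn]
    congr 1
    funext k
    abel
  rw [e3, e4, hn_Lm hA] at a2
  rw [show s - (j : ℤ) + 2 * r = (j : ℤ) + 2 - s by rw [hr]; ring] at a2
  rw [show 2 * r + (s - (j : ℤ)) - 1 = r by rw [hr]; ring] at hc
  exact le_trans a2.1 (add_le_add_right hc _)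

/-- the scalar inequality -/
theorem scal {x y z w d C₁ δ K : ℝ} (hx : 0 ≤ x) (hy : 0 ≤ y) (hz : 0 ≤ z) (hw : 0 ≤ w)
    (h1 : y ^ 2 ≤ (z + C₁ * y) * x) (h2 : x ≤ d * y + K * w) (hd : 0 ≤ d) (hC : 0 ≤ C₁)
    (hK : 0 ≤ K) (hδ : 0 < δ) (hd1 : 4 * d ≤ δ) (hd2 : 4 * (d * C₁) ≤ 1) :
    y ≤ δ * z + (4 * K / δ + 4 * C₁ * K) * w := by
  by_contra hcon
  push Not at hcon
  have hKw : 0 ≤ K * w := mul_nonneg hK hw
  have hq : 0 ≤ (4 * K / δ + 4 * C₁ * K) * w := by positivity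
  have hy0 : 0 < y := lt_of_le_of_lt (add_nonneg (mul_nonneg hδ.le hz) hq) hcon
  have hz1 : δ * z < y := by linarith
  have h3 : y ^ 2 ≤ (z + C₁ * y) * (d * y + K * w) :=
    le_trans h1 (mul_le_mul_of_nonneg_left h2 (by positivity))
  -- bound z by y / δ
  have hz2 : z ≤ y / δ := by rw [le_div_iff₀ hδ]; linarith
  have h4 : (z + C₁ * y) * (d * y + K * w) ≤ (y / δ + C₁ * y) * (d * y + K * w) :=
    mul_le_mul_of_nonneg_right (by linarith) (by positivity)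
  have h5 : (y / δ + C₁ * y) * (d * y + K * w) =
      y * ((d / δ + d * C₁) * y + (K / δ + C₁ * K) * w) := by ring
  have h6 : d / δ ≤ 1 / 4 := by rw [div_le_iff₀ hδ]; linarith
  have h7 : (d / δ + d * C₁) * y ≤ (1 / 2) * y := mul_le_mul_of_nonneg_right (by linarith) hy
  have h8 : y * y ≤ y * ((1 / 2) * y + (K / δ + C₁ * K) * w) := by
    have := mul_le_mul_of_nonneg_left (add_le_add_left h7 ((K / δ + C₁ * K) * w)) hy
    nlinarith
  have h9 : y ≤ (1 / 2) * y + (K / δ + C₁ * K) * w := le_of_mul_le_mul_left h8 hy0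
  have h10 : (4 * K / δ + 4 * C₁ * K) * w = 4 * ((K / δ + C₁ * K) * w) := by ring
  have h11 : 0 ≤ δ * z := mul_nonneg hδ.le hz
  nlinarith

theorem chain1 [CompleteSpace V] (h1 : A1Stmt) (h3 : A3Stmt) (h5 : A5Stmt) (γ : Z4 → ℂ)
    (hγ : Rap γ) (hs : stS γ = γ) (s : ℤ) (j : ℕ) : ∀ δ : ℝ, 0 < δ →
    ∃ C : ℝ, 0 ≤ C ∧ ∀ A : ℝ, 1 ≤ A → ∀ v : Z4 → V, Rap v →
      hn A ((j : ℤ) - s) ((scv γ)^[j] v) ≤ δ * hn A ((j : ℤ) + 1 - s) ((scv γ)^[j + 1] v)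
        + C * hn A (-s) v := by
  induction j with
  | zero =>
    intro δ hδ
    refine ⟨1, zero_le_one, fun A hA v hv => ?_⟩
    have := hn_nonneg A (((0 : ℕ) : ℤ) + 1 - s) ((scv γ)^[0 + 1] v)
    have e : hn A (((0 : ℕ) : ℤ) - s) ((scv γ)^[0] v) = hn A (-s) v := by simp
    rw [e]
    nlinarith
  | succ j ih =>
    intro δ hδ
    obtain ⟨C₁, hC₁, hst⟩ := step (V := V) h1 h3 h5 γ hγ hs s j
    set d : ℝ := min (δ / 4) (1 / (4 * (C₁ + 1))) with hd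
    have hd0 : 0 < d := lt_min (by positivity) (by positivity)
    have hd1 : 4 * d ≤ δ := by have := min_le_left (δ / 4) (1 / (4 * (C₁ + 1))); linarith
    have hd2 : 4 * (d * C₁) ≤ 1 := by
      have h := min_le_right (δ / 4) (1 / (4 * (C₁ + 1)))
      have h' : d * (4 * (C₁ + 1)) ≤ 1 := by
        rw [← le_div_iff₀ (by positivity)]; exact h
      nlinarith
    obtain ⟨K, hK, hih⟩ := ih d hd0
    refine ⟨4 * K / δ + 4 * C₁ * K, by positivity, fun A hA v hv => ?_⟩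
    have a := hst A hA v hv
    have b := hih A hA v hv
    have e1 : ((j + 1 : ℕ) : ℤ) - s = (j : ℤ) + 1 - s := by push_cast; ring
    have e2 : ((j + 1 : ℕ) : ℤ) + 1 - s = (j : ℤ) + 2 - s := by push_cast; ring
    rw [e1, e2]
    exact scal (hn_nonneg _ _ _) (hn_nonneg _ _ _) (hn_nonneg _ _ _) (hn_nonneg _ _ _) a b
      hd0.le hC₁ hK hδ hd1 hd2

theorem a6 (h1 : A1Stmt) (_h2 : A2Stmt) (h3 : A3Stmt) (h5 : A5Stmt) : A6Stmt := by
  intro V _ _ _ γ hγ hs m s hm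
  obtain ⟨n, rfl⟩ : ∃ n, m = n + 2 := ⟨m - 2, by omega⟩
  clear hm
  induction n with
  | zero =>
    intro δ hδ
    obtain ⟨C, hC, h⟩ := chain1 (V := V) h1 h3 h5 γ hγ hs s 1 δ hδ
    refine ⟨C, hC, fun A hA v hv => ?_⟩
    have := h A hA v hv
    simpa using this
  | succ n ih =>
    intro δ hδ
    obtain ⟨C, hC, h⟩ := ih δ hδ
    obtain ⟨C', hC', h'⟩ := chain1 (V := V) h1 h3 h5 γ hγ hs s (n + 2) 1 one_pos
    refine ⟨δ * C' + C, by positivity, fun A hA v hv => ?_⟩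
    have a := h A hA v hv
    have b := h' A hA v hv
    have e1 : ((n + 1 + 2 : ℕ) : ℤ) - s = ((n + 2 : ℕ) : ℤ) + 1 - s := by push_cast; ring
    rw [e1]
    have c := mul_le_mul_of_nonneg_left b hδ.le
    rw [one_mul, mul_add] at c
    calc hn A (1 - s) (scv γ v) ≤ _ := a
      _ ≤ (δ * hn A (((n + 2 : ℕ) : ℤ) + 1 - s) ((scv γ)^[n + 2 + 1] v)
            + δ * (C' * hn A (-s) v)) + C * hn A (-s) v := add_le_add_left c _
      _ = _ := by ring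

end Pool.Agent.AK.H15
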