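import Mathlib
import Pool.Agent.Helper15_AK.Base

set_option autoImplicit false

/-! Squad AK, A9: the main a priori inequality. -/

namespace Pool.Agent.AK.H15

open Complex

section

variable {V : Type} [NormedAddCommGroup V]

/-- `w` is in the weighted space and its norm is at most `c` -/
def Bd (A : ℝ) (s : ℤ) (w : Z4 → V) (c : ℝ) : Prop :=
  (Summable fun k => Lam A k ^ (2 * s) * ‖w k‖ ^ 2) ∧ hn A s w ≤ c

theorem Bd.add {A : ℝ} (hA : 1 ≤ A) {s : ℤ} {f g : Z4 → V} {a b : ℝ} (hf : Bd A s f a)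
    (hg : Bd A s g b) : Bd A s (fun k => f k + g k) (a + b) := by
  have h := hn_add hA s f g hf.1 hg.1
  exact ⟨h.2, h.1.trans (add_le_add hf.2 hg.2)⟩

theorem Bd.smul [NormedSpace ℂ V] {A : ℝ} {s : ℤ} {f : Z4 → V} {a : ℝ}
    (hf : Bd A s f a) (z : ℂ) : Bd A s (fun k => z • f k) (‖z‖ * a) := by
  have e : ∀ k, Lam A k ^ (2 * s) * ‖z • f k‖ ^ 2 = ‖z‖ ^ 2 * (Lam A k ^ (2 * s) * ‖f k‖ ^ 2) := by
    intro k
    rw [norm_smul]
    ring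
  refine ⟨?_, ?_⟩
  · simp only [e]
    exact hf.1.mul_left _
  · have : hn A s (fun k => z • f k) = ‖z‖ * hn A s f := by
      unfold hn
      simp only [e]
      rw [tsum_mul_left, Real.sqrt_mul (sq_nonneg _), Real.sqrt_sq (norm_nonneg _)]
    rw [this]
    exact mul_le_mul_of_nonneg_left hf.2 (norm_nonneg _)

theorem Bd.neg {A : ℝ} {s : ℤ} {f : Z4 → V} {a : ℝ}
    (hf : Bd A s f a) : Bd A s (fun k => - f k) a := by
  unfold Bd hn at *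
  simpa using hf

theorem Bd.mono {A : ℝ} {s : ℤ} {f : Z4 → V} {a b : ℝ} (hf : Bd A s f a) (h : a ≤ b) :
    Bd A s f b := ⟨hf.1, hf.2.trans h⟩

theorem Bd.congr {A : ℝ} {s : ℤ} {f g : Z4 → V} {a : ℝ} (hf : Bd A s f a) (h : ∀ k, g k = f k) :
    Bd A s g a := by rwa [show g = f from funext h]

end

section

variable {V : Type} [NormedAddCommGroup V] [NormedSpace ℂ V]

/-- the commutator of `Lm A r` and of an operator -/
noncomputable def Com (A : ℝ) (r : ℤ) (a : Z4 → (V →L[ℂ] V)) (w : Z4 → V) : Z4 → V :=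
  fun k => Lm A r (cv a w) k - cv a (Lm A r w) k

theorem com_bd [CompleteSpace V] (h1 : A1Stmt) (h5 : A5Stmt) (r r' : ℤ) (a : Z4 → (V →L[ℂ] V))
    (ha : Rap a) :
    ∃ C : ℝ, 0 ≤ C ∧ ∀ A : ℝ, 1 ≤ A → ∀ w : Z4 → V, Rap w →
      Bd A r' (Com A r a w) (C * hn A (r + r' - 1) w) := by
  obtain ⟨C, hC, h⟩ := h5.2 V r r' a ha
  refine ⟨C, hC, fun A hA w hw => ⟨?_, h A hA w hw⟩⟩
  have hr1 := (h1.2.1 V a w ha hw).1
  have hL1 := (h1.2.2.2.2.2.1 V A r _ hA hr1).1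
  have hL := (h1.2.2.2.2.2.1 V A r w hA hw).1
  have hr2 := (h1.2.1 V a _ ha hL).1
  have s1 := (h1.2.2.2.2.2.1 V A r' _ hA hL1).2.2
  have s2 := (h1.2.2.2.2.2.1 V A r' _ hA hr2).2.2
  have b1 : Bd A r' (Lm A r (cv a w)) _ := ⟨s1, le_refl _⟩
  have b2 : Bd A r' (cv a (Lm A r w)) _ := ⟨s2, le_refl _⟩
  exact ((b1.add hA b2.neg).congr (fun k => by simp [Com, sub_eq_add_neg])).1

theorem dj_Lm (A : ℝ) (r : ℤ) (j : Fin 4) (w : Z4 → V) : dj j (Lm A r w) = Lm A r (dj j w) := by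
  funext k
  unfold dj Lm
  rw [smul_comm]

end

theorem sc_final {W q G x t c₀ CR C8 C6 Cg Cx g' : ℝ} (hq : 0 ≤ q) (hG : 0 ≤ G)
    (hx : 0 ≤ x) (hC8 : 0 ≤ C8) (_hCR : 0 ≤ CR) (hW : 0 ≤ W) {Qn gn xn : ℝ} (hQn0 : 0 ≤ Qn)
    (h : t * c₀ * W ^ 2 ≤ 2 * Qn ^ 2 + C8 * W ^ 2 + C8 * W * (gn + xn))
    (hQ : Qn ≤ q + CR * W) (hg : gn ≤ g' + Cg * W) (hx' : xn ≤ x + Cx * W)
    (hg' : g' ≤ G + C6 * W)
    (ht : 4 * CR ^ 2 + C8 + C8 * (C6 + Cg + Cx) + 1 ≤ t * c₀) :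
    W ≤ 3 * q + C8 * (G + x) := by
  have e1 : Qn ^ 2 ≤ (q + CR * W) ^ 2 := pow_le_pow_left₀ hQn0 hQ 2
  have e2 : (q + CR * W) ^ 2 ≤ 2 * q ^ 2 + 2 * (CR * W) ^ 2 := by
    nlinarith [sq_nonneg (q - CR * W)]
  have e3 : C8 * W * (gn + xn) ≤ C8 * W * ((G + C6 * W + Cg * W) + (x + Cx * W)) :=
    mul_le_mul_of_nonneg_left (by linarith) (mul_nonneg hC8 hW)
  have e4 : (4 * CR ^ 2 + C8 + C8 * (C6 + Cg + Cx) + 1) * W ^ 2 ≤ t * c₀ * W ^ 2 :=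
    mul_le_mul_of_nonneg_right ht (sq_nonneg _)
  have e5 : W ^ 2 ≤ 4 * q ^ 2 + C8 * W * (G + x) := by nlinarith
  have e6 : C8 * W * (G + x) ≤ W ^ 2 / 2 + (C8 * (G + x)) ^ 2 / 2 := by
    nlinarith [sq_nonneg (W - C8 * (G + x))]
  have e7 : W ^ 2 ≤ 8 * q ^ 2 + (C8 * (G + x)) ^ 2 := by nlinarith
  have hH : 0 ≤ C8 * (G + x) := mul_nonneg hC8 (by linarith)
  apply le_of_sq_le_sq _ (by positivity)
  nlinarith [mul_nonneg hq hH, sq_nonneg q]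

theorem Qs_bd (h1 : A1Stmt) (h5 : A5Stmt) (N : ℕ) (D : TData N) (s : ℤ)
    (h3 : A3Stmt) :
    ∃ C : ℝ, 0 ≤ C ∧ ∀ t A : ℝ, 1 ≤ t → t ^ 2 ≤ A → ∀ v : Z4 → EuclideanSpace ℂ (Fin N), Rap v →
      hn A 0 (D.Qs t (Lm A s v)) ≤ hn A s (D.Qs t v) + C * hn A s v := by
  have rs : ∀ j, Rap (stS (D.a j)) := fun j => h1.2.2.2.1 _ (D.ra j)
  -- the scalar symbols
  set bj : Fin 4 → Z4 → (EuclideanSpace ℂ (Fin N) →L[ℂ] EuclideanSpace ℂ (Fin N)) :=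
    fun j k => stS (D.a j) k • ContinuousLinearMap.id ℂ _ with hbj
  have rbj : ∀ j, Rap (bj j) := fun j => h1.2.2.2.2.2.2 _ _ (rs j)
  have radd : ∀ f g : Z4 → ℂ, Rap f → Rap g → Rap (fun k => f k + g k) := by
    intro f g hf hg n
    obtain ⟨C, hC⟩ := hf n
    obtain ⟨C', hC'⟩ := hg n
    refine ⟨C + C', fun k => ?_⟩
    have hL := pow_nonneg (Lam_pos (le_refl (1 : ℝ)) k).le n
    calc Lam 1 k ^ n * ‖f k + g k‖ ≤ Lam 1 k ^ n * (‖f k‖ + ‖g k‖) :=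
          mul_le_mul_of_nonneg_left (norm_add_le _ _) hL
      _ ≤ C + C' := by rw [mul_add]; exact add_le_add (hC k) (hC' k)
  have rdiv : Rap (fun l => ∑ j, dj j (stS (D.a j)) l) := by
    have hj : ∀ j, Rap (dj j (stS (D.a j))) := fun j => h1.2.2.1 _ j _ (rs j)
    simp only [Fin.sum_univ_four]
    exact radd _ _ (radd _ _ (radd _ _ (hj 0) (hj 1)) (hj 2)) (hj 3)
  have rphi : Rap (vf (fun i => stS (D.a i)) D.φ) := by
    have hj : ∀ j, Rap (scv (stS (D.a j)) (dj j D.φ)) := fun j =>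
      (h1.1 ℂ _ _ (rs j) (h1.2.2.1 _ j _ D.rφ)).1
    have e : vf (fun i => stS (D.a i)) D.φ =
        fun k => ((scv (stS (D.a 0)) (dj 0 D.φ) k + scv (stS (D.a 1)) (dj 1 D.φ) k)
          + scv (stS (D.a 2)) (dj 2 D.φ) k) + scv (stS (D.a 3)) (dj 3 D.φ) k := by
      funext k
      simp only [vf, Fin.sum_univ_four]
    rw [e]
    exact radd _ _ (radd _ _ (radd _ _ (hj 0) (hj 1)) (hj 2)) (hj 3)
  set b1 : Z4 → (EuclideanSpace ℂ (Fin N) →L[ℂ] EuclideanSpace ℂ (Fin N)) :=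
    fun k => (∑ j, dj j (stS (D.a j)) k) • ContinuousLinearMap.id ℂ _ with hb1
  set b2 : Z4 → (EuclideanSpace ℂ (Fin N) →L[ℂ] EuclideanSpace ℂ (Fin N)) :=
    fun k => (vf (fun i => stS (D.a i)) D.φ k) • ContinuousLinearMap.id ℂ _ with hb2
  have rb1 : Rap b1 := h1.2.2.2.2.2.2 _ _ rdiv
  have rb2 : Rap b2 := h1.2.2.2.2.2.2 _ _ rphi
  have rM : Rap (stM D.M) := h1.2.2.2.2.1 N D.M D.rM
  choose Cj hCj hj using fun j => com_bd h1 h5 s 0 (bj j) (rbj j)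
  obtain ⟨C1, hC1, hc1⟩ := com_bd h1 h5 s 0 b1 rb1
  obtain ⟨C2, hC2, hc2⟩ := com_bd h1 h5 s 0 b2 rb2
  obtain ⟨C3, hC3, hc3⟩ := com_bd h1 h5 s 0 (stM D.M) rM
  refine ⟨(∑ j, Cj j * (2 * Real.pi)) + C1 + C2 + C3, by
    have : 0 ≤ ∑ j, Cj j * (2 * Real.pi) :=
      Finset.sum_nonneg fun j _ => mul_nonneg (hCj j) (by positivity)
    positivity, ?_⟩
  intro t A ht htA v hv
  have hA : 1 ≤ A := by nlinarith
  have hA0 : 0 < A := by linarith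
  have hsA : 1 ≤ Real.sqrt A := Real.one_le_sqrt.2 hA
  have htS : t ≤ Real.sqrt A := Real.le_sqrt_of_sq_le htA
  set W := hn A s v with hW
  have hW0 : 0 ≤ W := hn_nonneg _ _ _
  have sv : ∀ q : ℤ, Summable fun k => Lam A k ^ (2 * q) * ‖v k‖ ^ 2 :=
    fun q => (h1.2.2.2.2.2.1 _ A q v hA hv).2.2
  have hp : hn A (s + 0 - 1) v ≤ (Real.sqrt A)⁻¹ * W := by
    rw [add_zero]
    exact hn_pred hA s v (sv s)
  have hinv : (Real.sqrt A)⁻¹ ≤ 1 := inv_le_one_of_one_le₀ hsA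
  have hp1 : hn A (s + 0 - 1) v ≤ W := hp.trans (by nlinarith)
  have k1 := (hc1 A hA v hv).mono (mul_le_mul_of_nonneg_left hp1 hC1)
  have k3 := (hc3 A hA v hv).mono (mul_le_mul_of_nonneg_left hp1 hC3)
  have k2 : Bd A 0 (fun k => (-((t / 2 : ℝ) : ℂ)) • Com A s b2 v k) (C2 * W) := by
    refine ((hc2 A hA v hv).smul _).mono ?_
    rw [norm_neg, Complex.norm_real, Real.norm_of_nonneg (by linarith)]
    have h0 : t * (Real.sqrt A)⁻¹ ≤ 1 := by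
      rw [← div_eq_mul_inv]
      exact (div_le_one (by linarith)).2 htS
    have h00 : 0 ≤ t * (Real.sqrt A)⁻¹ := by positivity
    calc t / 2 * (C2 * hn A (s + 0 - 1) v) ≤ t / 2 * (C2 * ((Real.sqrt A)⁻¹ * W)) :=
          mul_le_mul_of_nonneg_left (mul_le_mul_of_nonneg_left hp hC2) (by linarith)
      _ = (C2 * W) * ((t * (Real.sqrt A)⁻¹) / 2) := by ring
      _ ≤ (C2 * W) * 1 := mul_le_mul_of_nonneg_left (by linarith) (by positivity)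
      _ = _ := mul_one _
  have kj : ∀ j, Bd A 0 (Com A s (bj j) (dj j v)) (Cj j * (2 * Real.pi) * W) := by
    intro j
    refine (hj j A hA _ (h1.2.2.1 _ j v hv)).mono ?_
    rw [mul_assoc]
    refine mul_le_mul_of_nonneg_left ?_ (hCj j)
    have := hn_dj hA (s - 1) j v (by rw [sub_add_cancel]; exact sv s)
    rw [sub_add_cancel] at this
    rw [add_zero]
    exact this
  have ksum := ((((((kj 0).add hA (kj 1)).add hA (kj 2)).add hA (kj 3)).add hA k1).add hA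
    k2).add hA k3.neg
  have hQr : Rap (D.Qs t v) := (h3.2.2.2.2.2.2 N D t v v hv hv).2.1
  have kL : Bd A 0 (Lm A s (D.Qs t v)) (hn A s (D.Qs t v)) := by
    refine ⟨?_, ?_⟩
    · exact (h1.2.2.2.2.2.1 _ A 0 _ hA (h1.2.2.2.2.2.1 _ A s _ hA hQr).1).2.2
    · rw [hn_Lm hA, zero_add]
  have kall := kL.add hA ksum
  have hfin : ∀ k, D.Qs t (Lm A s v) k = Lm A s (D.Qs t v) k +
      ((((((Com A s (bj 0) (dj 0 v) k + Com A s (bj 1) (dj 1 v) k) + Com A s (bj 2) (dj 2 v) k)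
        + Com A s (bj 3) (dj 3 v) k) + Com A s b1 v k)
        + (-((t / 2 : ℝ) : ℂ)) • Com A s b2 v k) + - Com A s (stM D.M) v k) := by
    intro k
    have c1 : ∀ w, cv b1 w = scv (fun l => ∑ j, dj j (stS (D.a j)) l) w := fun w => cv_id _ w
    have c2 : ∀ w, cv b2 w = scv (vf (fun i => stS (D.a i)) D.φ) w := fun w => cv_id _ w
    have cj : ∀ j w, cv (bj j) w = scv (stS (D.a j)) w := fun j w => cv_id _ w
    unfold Com TData.Qs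
    simp only [c1, c2, cj]
    simp only [vf, Fin.sum_univ_four, dj_Lm]
    simp only [Lm]
    module
  have := (kall.congr hfin).2
  refine this.trans (le_of_eq ?_)
  simp only [Fin.sum_univ_four]
  ring

theorem g_bd {V : Type} [NormedAddCommGroup V] [NormedSpace ℂ V] [CompleteSpace V] (h1 : A1Stmt)
    (h5 : A5Stmt) (γ : Z4 → ℂ) (hγ : Rap γ) (s : ℤ) :
    ∃ C : ℝ, 0 ≤ C ∧ ∀ A : ℝ, 1 ≤ A → ∀ v : Z4 → V, Rap v →
      hn A 1 (scv γ (Lm A s v)) ≤ hn A (1 + s) (scv γ v) + C * hn A s v := by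
  obtain ⟨C, hC, h⟩ := com_bd (V := V) h1 h5 s 1 (fun k => γ k • ContinuousLinearMap.id ℂ V)
    (h1.2.2.2.2.2.2 V γ hγ)
  refine ⟨C, hC, fun A hA v hv => ?_⟩
  have b := h A hA v hv
  rw [show s + 1 - 1 = s by ring] at b
  have hr := (h1.1 V γ v hγ hv).1
  have hL := (h1.2.2.2.2.2.1 V A s _ hA hr).1
  have b2 : Bd A 1 (Lm A s (scv γ v)) (hn A (1 + s) (scv γ v)) :=
    ⟨(h1.2.2.2.2.2.1 V A 1 _ hA hL).2.2, by rw [hn_Lm hA]⟩
  have b3 := (b2.add hA b.neg).congr (g := scv γ (Lm A s v)) (fun k => by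
    unfold Com
    rw [cv_id, cv_id]
    abel)
  exact b3.2

theorem mi (h1 : A1Stmt) (_h2 : A2Stmt) (h3 : A3Stmt) (h5 : A5Stmt) (h6 : A6Stmt)
    (h8 : A8Stmt) : MIStmt := by
  intro N D m s hm
  obtain ⟨C8, hC8, h8'⟩ := h8 N D
  obtain ⟨CR, hCR, hR⟩ := Qs_bd h1 h5 N D (-(s : ℤ)) h3
  obtain ⟨Cg, hCg, hg⟩ := g_bd (V := EuclideanSpace ℂ (Fin N)) h1 h5 D.γ D.rγ (-(s : ℤ))
  obtain ⟨Cx, hCx, hx⟩ := g_bd (V := EuclideanSpace ℂ (Fin N)) h1 h5 D.χ D.rχ (-(s : ℤ))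
  have h6' : ∃ C : ℝ, 0 ≤ C ∧ ∀ A : ℝ, 1 ≤ A → ∀ v : Z4 → EuclideanSpace ℂ (Fin N), Rap v →
      hn A (1 + -(s : ℤ)) (scv D.γ v) ≤ hn A ((m : ℤ) - s) ((scv D.γ)^[m] v)
        + C * hn A (-(s : ℤ)) v := by
    rcases Nat.lt_or_ge m 2 with hm2 | hm2
    · obtain rfl : m = 1 := by omega
      refine ⟨0, le_refl _, fun A hA v hv => ?_⟩
      simp [sub_eq_add_neg]
    · obtain ⟨C, hC, h⟩ := h6 (EuclideanSpace ℂ (Fin N)) D.γ D.rγ D.sγ m s hm2 1 one_pos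
      refine ⟨C, hC, fun A hA v hv => ?_⟩
      have := h A hA v hv
      rw [one_mul] at this
      rwa [← sub_eq_add_neg]
  obtain ⟨C6, hC6, h6''⟩ := h6'
  set t : ℝ := max 1 ((4 * CR ^ 2 + C8 + C8 * (C6 + Cg + Cx) + 1) / D.c0) with ht
  have ht1 : 1 ≤ t := le_max_left _ _
  have htc : 4 * CR ^ 2 + C8 + C8 * (C6 + Cg + Cx) + 1 ≤ t * D.c0 := by
    rw [← div_le_iff₀ D.hc0]
    exact le_max_right _ _
  have hA : 1 ≤ t ^ 2 := one_le_pow₀ ht1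
  have hcmp : ∀ k, Lam 1 k ≤ Lam (t ^ 2) k ∧ Lam (t ^ 2) k ≤ t * Lam 1 k := by
    intro k
    have := Lam_cmp hA k
    rwa [Real.sqrt_sq (by linarith)] at this
  have hL1 : ∀ k, 0 < Lam 1 k := fun k => Lam_pos (le_refl _) k
  have hL2 : ∀ k, 0 < Lam (t ^ 2) k := fun k => Lam_pos hA k
  refine ⟨t, t ^ s * (3 * t ^ s + C8 * t ^ ((m : ℤ) - s).natAbs
    + C8 * t ^ (1 - (s : ℤ)).natAbs), fun v hv => ?_⟩
  have rQ : Rap (D.Qs t v) := (h3.2.2.2.2.2.2 N D t v v hv hv).2.1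
  have rL : Rap (Lm (t ^ 2) (-(s : ℤ)) v) := (h1.2.2.2.2.2.1 _ (t ^ 2) _ v hA hv).1
  have rχ : Rap (scv D.χ v) := (h1.1 _ _ _ D.rχ hv).1
  have rγm : Rap ((scv D.γ)^[m] v) := by
    clear h6''
    induction m with
    | zero => exact hv
    | succ n ih =>
      rw [Function.iterate_succ_apply']
      rcases Nat.eq_zero_or_pos n with hn | hn
      · subst hn
        exact (h1.1 _ _ _ D.rγ hv).1
      · exact (h1.1 _ _ _ D.rγ (ih hn)).1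
  have sm : ∀ (w : Z4 → EuclideanSpace ℂ (Fin N)) (q : ℤ), Rap w →
      Summable fun k => Lam 1 k ^ (2 * q) * ‖w k‖ ^ 2 :=
    fun w q hw => (h1.2.2.2.2.2.1 _ 1 q w (le_refl _) hw).2.2
  have sm' : ∀ (w : Z4 → EuclideanSpace ℂ (Fin N)) (q : ℤ), Rap w →
      Summable fun k => Lam (t ^ 2) k ^ (2 * q) * ‖w k‖ ^ 2 :=
    fun w q hw => (h1.2.2.2.2.2.1 _ (t ^ 2) q w hA hw).2.2
  have key := sc_final (W := hn (t ^ 2) (-(s : ℤ)) v) (q := hn (t ^ 2) (-(s : ℤ)) (D.Qs t v))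
    (G := hn (t ^ 2) ((m : ℤ) - s) ((scv D.γ)^[m] v))
    (x := hn (t ^ 2) (1 + -(s : ℤ)) (scv D.χ v))
    (hn_nonneg _ _ _) (hn_nonneg _ _ _) (hn_nonneg _ _ _) hC8 hCR (hn_nonneg _ _ _)
    (hn_nonneg (t ^ 2) 0 (D.Qs t (Lm (t ^ 2) (-(s : ℤ)) v)))
    (by
      have := h8' t (t ^ 2) ht1 (le_refl _) _ rL
      rwa [hn_Lm hA, zero_add] at this)
    (hR t (t ^ 2) ht1 (le_refl _) v hv) (hg _ hA v hv) (hx _ hA v hv) (h6'' _ hA v hv) htc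
  rw [← sub_eq_add_neg] at key
  have c1 := hn_cmp (le_refl (1 : ℝ)) hA t ht1
    (fun k => (hcmp k).1.trans (by nlinarith [hL2 k])) (fun k => (hcmp k).2) (-(s : ℤ)) v
    (sm' _ _ hv)
  have c2 : ∀ (q : ℤ) (w : Z4 → EuclideanSpace ℂ (Fin N)), Rap w →
      hn (t ^ 2) q w ≤ t ^ q.natAbs * hn 1 q w := fun q w hw =>
    hn_cmp hA (le_refl (1 : ℝ)) t ht1 (fun k => (hcmp k).2)
      (fun k => (hcmp k).1.trans (by nlinarith [hL2 k])) q w (sm _ _ hw)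
  have d1 := c2 (-(s : ℤ)) _ rQ
  have d2 := c2 ((m : ℤ) - s) _ rγm
  have d3 := c2 (1 - (s : ℤ)) _ rχ
  have en : (-(s : ℤ)).natAbs = s := by simp
  rw [en] at c1 d1
  set Q1 := hn 1 (-(s : ℤ)) (D.Qs t v)
  set G1 := hn 1 ((m : ℤ) - s) ((scv D.γ)^[m] v)
  set X1 := hn 1 (1 - (s : ℤ)) (scv D.χ v)
  have hQ1 : 0 ≤ Q1 := hn_nonneg _ _ _
  have hG1 : 0 ≤ G1 := hn_nonneg _ _ _
  have hX1 : 0 ≤ X1 := hn_nonneg _ _ _
  have ts : 0 ≤ t ^ s := by positivity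
  have ta : 0 ≤ t ^ ((m : ℤ) - s).natAbs := by positivity
  have tb : 0 ≤ t ^ (1 - (s : ℤ)).natAbs := by positivity
  have f1 : hn (t ^ 2) (-(s : ℤ)) v ≤ 3 * (t ^ s * Q1)
      + C8 * (t ^ ((m : ℤ) - s).natAbs * G1 + t ^ (1 - (s : ℤ)).natAbs * X1) := by
    refine key.trans (add_le_add (by linarith) (mul_le_mul_of_nonneg_left (by linarith) hC8))
  have f2 : 3 * (t ^ s * Q1)
      + C8 * (t ^ ((m : ℤ) - s).natAbs * G1 + t ^ (1 - (s : ℤ)).natAbs * X1) ≤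
      (3 * t ^ s + C8 * t ^ ((m : ℤ) - s).natAbs + C8 * t ^ (1 - (s : ℤ)).natAbs)
        * (Q1 + G1 + X1) := by
    have p1 : 0 ≤ 3 * t ^ s * G1 := by positivity
    have p2 : 0 ≤ 3 * t ^ s * X1 := by positivity
    have p3 : 0 ≤ C8 * t ^ ((m : ℤ) - s).natAbs * Q1 := by positivity
    have p4 : 0 ≤ C8 * t ^ ((m : ℤ) - s).natAbs * X1 := by positivity
    have p5 : 0 ≤ C8 * t ^ (1 - (s : ℤ)).natAbs * Q1 := by positivity
    have p6 : 0 ≤ C8 * t ^ (1 - (s : ℤ)).natAbs * G1 := by positivity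
    nlinarith
  calc hn 1 (-(s : ℤ)) v ≤ t ^ s * hn (t ^ 2) (-(s : ℤ)) v := c1
    _ ≤ t ^ s * ((3 * t ^ s + C8 * t ^ ((m : ℤ) - s).natAbs + C8 * t ^ (1 - (s : ℤ)).natAbs)
        * (Q1 + G1 + X1)) := mul_le_mul_of_nonneg_left (f1.trans f2) ts
    _ = _ := by ring

end Pool.Agent.AK.H15
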